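import Mathlib

set_option autoImplicit false

namespace Pool.Agent.Results.MP_291af2_co.Rigid

open Finset

def Lattice {k : ℕ} (w : List (Fin k)) : Prop :=
  ∀ (n : ℕ) (i j : Fin k), i ≤ j → (w.take n).count j ≤ (w.take n).count i

def tree (k : ℕ) : SimpleGraph {w : List (Fin k) // Lattice w} :=
  SimpleGraph.fromRel fun u v => ∃ a, v.1 = u.1 ++ [a]

variable {k : ℕ}

abbrev V (k : ℕ) := {w : List (Fin k) // Lattice w}

theorem mono (v : V k) {i j : Fin k} (h : i ≤ j) : v.1.count j ≤ v.1.count i := by
  simpa using v.2 v.1.length i j h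

theorem add (v : V k) (a : Fin k) (h : ∀ i < a, v.1.count a < v.1.count i) :
    ∃ c : V k, c.1 = v.1 ++ [a] := by
  refine ⟨⟨_, fun n i j ij => ?_⟩, rfl⟩
  rcases le_or_gt n v.1.length with z | z
  · rw [List.take_append_of_le_length z]; exact v.2 n i j ij
  · rw [List.take_of_length_le (by simpa)]
    have := mono v ij
    have := h i
    simp only [List.count_append, List.count_singleton, beq_iff_eq]
    grind

theorem par (v : V k) (h : v.1 ≠ []) : ∃ (u : V k) (a : Fin k), v.1 = u.1 ++ [a] :=
  ⟨⟨v.1.dropLast, fun n i j ij => by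
    rw [List.dropLast_eq_take, List.take_take]; exact v.2 _ i j ij⟩, _,
    (List.dropLast_append_getLast h).symm⟩

theorem adj {u v : V k} : (tree k).Adj u v ↔ (∃ a, v.1 = u.1 ++ [a]) ∨ ∃ a, u.1 = v.1 ++ [a] := by
  refine (SimpleGraph.fromRel_adj ..).trans (and_iff_right_of_imp ?_)
  rintro (⟨a, h⟩ | ⟨a, h⟩) rfl <;> simp at h

theorem ind {P : V k → Prop} (h0 : ∀ v, v.1 = [] → P v)
    (h : ∀ u a v, v.1 = u.1 ++ [a] → P u → P v) (v : V k) : P v := by
  induction e : v.1.length generalizing v with
  | zero => exact h0 v (by simpa using e)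
  | succ n ih =>
    obtain ⟨u, a, p⟩ := par v (by rintro z; simp [z] at e)
    exact h u a v p (ih u (by simpa [p] using e))

variable [NeZero k]

theorem root (f : tree k ≃g tree k) (v : V k) (h : v.1 = []) : (f v).1 = [] := by
  by_contra n
  obtain ⟨u, a, p⟩ := par _ n
  obtain ⟨c, q⟩ := add (f v) 0 (by simp)
  have e : ∀ x, (tree k).Adj (f v) x → (f.symm x).1 = [0] := fun x hx => by
    rw [← f.symm.map_adj_iff, f.symm_apply_apply, adj, h] at hx
    obtain ⟨b, hb⟩ | ⟨b, hb⟩ := hx <;> simp at hb
    have := mono (f.symm x) (Fin.zero_le b)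
    rw [hb] at this ⊢
    by_contra z
    simp [show b ≠ 0 by simpa using z] at this
  have := f.symm.injective (Subtype.ext ((e u (adj.2 (.inr ⟨a, p⟩))).trans (e c (adj.2 (.inl ⟨0, q⟩))).symm))
  have := congrArg List.length (q.trans (by rw [p, this]))
  simp at this

theorem len (f : tree k ≃g tree k) (v : V k) : (f v).1.length ≤ v.1.length := by
  refine ind (P := fun v => (f v).1.length ≤ v.1.length) (fun v h => by simp [root f v h])
    (fun u a v p h => ?_) v
  obtain ⟨b, q⟩ | ⟨b, q⟩ := adj.1 (f.map_adj_iff.2 (adj.2 (.inl ⟨a, p⟩))) <;>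
    have := congrArg List.length q <;> simp [p] at * <;> omega

theorem ch (f : tree k ≃g tree k) {u v : V k} {a : Fin k} (p : v.1 = u.1 ++ [a]) :
    ∃ b, (f v).1 = (f u).1 ++ [b] := by
  refine (adj.1 (f.map_adj_iff.2 (adj.2 (.inl ⟨a, p⟩)))).resolve_right fun ⟨b, q⟩ => ?_
  have := congrArg List.length q
  have := len f u
  have := len f.symm (f v)
  simp [p] at *
  omega

def M (j : Fin k) (v : V k) : ℕ := ∑ i with j < i, (v.1.count j - v.1.count i)

omit [NeZero k] in
theorem M1 {j a : Fin k} {u v : V k} (p : v.1 = u.1 ++ [a]) :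
    (a < j → M j v = M j u) ∧ (a = j → M j u ≤ M j v) ∧ (j < a → M j v + 1 = M j u) := by
  refine ⟨fun h => sum_congr rfl fun i hi => ?_, fun h => sum_le_sum fun i hi => ?_, fun h => ?_⟩
  iterate 2
    simp only [p, List.count_append, List.count_singleton, beq_iff_eq, mem_filter] at *
    grind
  have m : a ∈ univ.filter (j < ·) := by simpa
  have := mono v h.le
  unfold M
  rw [← add_sum_erase _ _ m, ← add_sum_erase _ _ m, add_right_comm]
  congr 1
  · simp only [p, List.count_append, List.count_singleton, beq_iff_eq] at *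
    grind
  refine sum_congr rfl fun i hi => ?_
  simp only [p, List.count_append, List.count_singleton, beq_iff_eq, mem_filter, mem_erase] at *
  grind

omit [NeZero k] in
theorem M2 {j : Fin k} {u : V k} (h : M j u ≠ 0) : ∃ (a : Fin k) (v : V k), j < a ∧ v.1 = u.1 ++ [a] := by
  obtain ⟨i, hi, e⟩ := exists_ne_zero_of_sum_ne_zero h
  obtain ⟨a, ha, m⟩ := exists_min_image (univ.filter fun i => j < i ∧ u.1.count i < u.1.count j) id
    ⟨i, by simp at *; omega⟩
  simp only [mem_filter, mem_univ, true_and, id] at ha m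
  refine ⟨a, (add u a fun i hi => ?_).imp fun _ h => ⟨ha.1, h⟩⟩
  have := m i
  have := mono u (i := i) (j := j)
  grind

theorem lab (n : ℕ) : ∀ (f : tree k ≃g tree k) (u v : V k) (a b : Fin k), v.1 = u.1 ++ [a] →
    (f v).1 = (f u).1 ++ [b] → a.1 < n → a = b := by
  induction n with
  | zero => simp
  | succ n ih =>
    intro f u v j b p q h
    refine (Nat.lt_succ_iff_lt_or_eq.1 h).elim (ih f u v j b p q) fun e => ?_
    subst e
    have s : ∀ (f : tree k ≃g tree k) (u v : V k) (a b : Fin k), v.1 = u.1 ++ [a] →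
        (f v).1 = (f u).1 ++ [b] → b < j → a = b := fun f u v a b p q h =>
      (ih f.symm _ _ b a q (by simpa) h).symm
    have z : ∀ (f : tree k ≃g tree k) (v : V k), M j v = 0 → M j (f v) = 0 := fun f v h => by
      have : ∀ t (ht : t ≤ j.1), ∃ w x : V k, M j w = M j v ∧ M j (f w) = M j (f v) ∧
          x.1 = (f w).1 ++ [⟨t, by omega⟩] := fun t ht => by
        induction t with
        | zero => exact ⟨v, (add (f v) 0 (by simp)).imp fun _ h => ⟨rfl, rfl, h⟩⟩
        | succ t it =>
          obtain ⟨w, x, a, b, c⟩ := it (by omega)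
          obtain ⟨d, e⟩ := ch f.symm c
          rw [← ih _ _ _ _ _ c e ht, f.symm_apply_apply] at e
          refine ⟨f.symm x, (add x ⟨t + 1, by omega⟩ fun i hi => ?_).imp fun _ h =>
            ⟨((M1 e).1 ht).trans a, by rw [f.apply_symm_apply, (M1 c).1 ht, b], by simpa⟩⟩
          have := mono x (i := i) (j := ⟨t, by omega⟩) (Nat.lt_succ_iff.1 hi)
          have := mono (f w) (i := ⟨t, by omega⟩) (j := ⟨t + 1, by omega⟩) t.le_succ
          simp only [c, List.count_append, List.count_singleton, beq_iff_eq] at *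
          grind
      obtain ⟨w, x, a, b, c⟩ := this j le_rfl
      by_contra n
      obtain ⟨i, y, d, e⟩ := M2 (b.trans_ne n)
      obtain ⟨x', c'⟩ := ch f.symm c
      obtain ⟨y', e'⟩ := ch f.symm e
      have := s _ _ _ _ _ c c'
      have := s _ _ _ _ _ e e'
      rw [f.symm_apply_apply] at c' e'
      have := (M1 (j := j) c').2.2
      have := (M1 (j := j) e').2.2
      have : x = y := f.symm.injective (Subtype.ext (by rw [c', e']; grind))
      rw [this, e] at c
      simp at c
      exact d.ne' c
    have m : ∀ (f : tree k ≃g tree k) (v : V k), M j (f v) ≤ M j v := fun f v => by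
      induction e : M j v generalizing v with
      | zero => exact (z f v e).le
      | succ n ih =>
        obtain ⟨a, w, d, p⟩ := M2 (e.trans_ne n.succ_ne_zero)
        obtain ⟨b, q⟩ := ch f p
        have := s _ _ _ _ _ p q
        have := M1 (j := j) p
        have := M1 (j := j) q
        have := ih w
        grind
    have := s _ _ _ _ _ p q
    have := M1 (j := j) p
    have := M1 (j := j) q
    have := m f u
    have := m f.symm (f v)
    rw [f.symm_apply_apply] at this
    grind

omit [NeZero k] in
theorem result (hk : 1 ≤ k) (f : tree k ≃g tree k) (v : {w : List (Fin k) // Lattice w}) :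
    f v = v := by
  have : NeZero k := ⟨by omega⟩
  refine ind (P := fun v => f v = v) (fun v h => Subtype.ext ((root f v h).trans h.symm))
    (fun u a v p h => ?_) v
  obtain ⟨b, q⟩ := ch f p
  exact Subtype.ext (by rw [q, p, h, lab k f u v a b p q a.2])

end Pool.Agent.Results.MP_291af2_co.Rigid
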